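import Mathlib
import Pool.Agent.Run7.h754.Man

/-!
# Hausdorff group topologies coarser than the compact-open topology on diffeomorphism groups of
3-manifolds

Either such a topology is the compact-open topology, or all its neighbourhoods of the identity are
transitive on the `n`-tuples of distinct points of every connected open set, already by elements
with compact support in that open set.
-/

open Set Filter Topology
open scoped ContDiff Manifold
open Pool.Agent.Run7.h754

namespace Pool.Agent.Results.MP_ff6fba_gt.Dichotomy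

theorem result {M : Type*} [TopologicalSpace M] [T2Space M] [ConnectedSpace M]
    [ChartedSpace (EuclideanSpace ℝ (Fin 3)) M] [IsManifold (𝓡 3) ∞ M]
    (G : Subgroup (M ≃ₜ M)) (hG : ContainsLocal (EuclideanSpace ℝ (Fin 3)) G)
    (τ : TopologicalSpace G) (hgrp : @IsTopologicalGroup G τ _) (hT2 : @T2Space G τ)
    (hle : coTop G ≤ τ) :
    τ = coTop G ∨
      ∀ W ∈ @nhds G τ 1, ∀ O : Set M, IsOpen O → IsPreconnected O → ∀ (n : ℕ) (x y : Fin n → M),
        Function.Injective x → Function.Injective y → (∀ i, x i ∈ O) → (∀ i, y i ∈ O) →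
        ∃ g ∈ W, SuppIn (g : M ≃ₜ M) O ∧ ∀ i, (g : M ≃ₜ M) (x i) = y i := by
  have h1 : LocallyCompactSpace M := ChartedSpace.locallyCompactSpace (EuclideanSpace ℝ (Fin 3)) M
  have h2 : LocallyConnectedSpace M :=
    ChartedSpace.locallyConnectedSpace (EuclideanSpace ℝ (Fin 3)) M
  have hE : 1 < Module.rank ℝ (EuclideanSpace ℝ (Fin 3)) := by
    rw [← Module.finrank_eq_rank, finrank_euclideanSpace_fin]
    norm_num
  have hperf : ∀ x : M, (𝓝[≠] x).NeBot := fun x =>
    perfect_of_nontrivial (E := EuclideanSpace ℝ (Fin 3)) x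
  rcases dichotomy (G := G) (τ := τ) (locTrans (E := EuclideanSpace ℝ (Fin 3)) hG) hperf hle with
    h | h
  · exact Or.inl h
  · right
    intro W hW O hO hOc n x y hx hy hxO hyO
    exact multi hperf (noCut (E := EuclideanSpace ℝ (Fin 3)) hE) h n W hW O hO hOc x y hx hy hxO hyO

end Pool.Agent.Results.MP_ff6fba_gt.Dichotomy
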